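import Pool.Agent.helper77.B2.STe
import Pool.Agent.helper68.B2.MA3

/-!
# MP_b2b189_gt: the bridge with an arbitrary second metric

The same as `bridge` (file `helper77/B2/STe.lean`), but the second metric may have any signature
and the first is only assumed indefinite in one of the two charts.
-/

set_option autoImplicit false

namespace Pool.Agent.helper81.SG

open scoped ContDiff Topology Matrix
open Matrix Set
open Pool.Agent.helper68.B2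

attribute [local instance]
  Matrix.linftyOpNormedRing
  Matrix.linftyOpNormedAlgebra

theorem bridge2 (g₁ g₂ h₁ h₂ : (Fin 3 → ℝ) → Matrix (Fin 3) (Fin 3) ℝ)
    (sg₁ : ∀ i j, ContDiff ℝ (⊤ : ℕ∞) (fun x => g₁ x i j))
    (sg₂ : ∀ i j, ContDiff ℝ (⊤ : ℕ∞) (fun x => g₂ x i j))
    (sh₁ : ∀ i j, ContDiff ℝ (⊤ : ℕ∞) (fun y => h₁ y i j))
    (sh₂ : ∀ i j, ContDiff ℝ (⊤ : ℕ∞) (fun y => h₂ y i j))
    (pg₁ : ∀ x, (g₁ x).IsSymm ∧ (g₁ x).det ≠ 0 ∧ ¬ (g₁ x).PosDef ∧ ¬ (-g₁ x).PosDef)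
    (pg₂ : ∀ x, (g₂ x).IsSymm ∧ (g₂ x).det ≠ 0)
    (ph₁ : ∀ x, (h₁ x).IsSymm ∧ (h₁ x).det ≠ 0)
    (ph₂ : ∀ x, (h₂ x).IsSymm ∧ (h₂ x).det ≠ 0)
    (gl₁ : Glue g₁ h₁) (gl₂ : Glue g₂ h₂)
    (hφ : ∃ φ : (Fin 3 → ℝ) → Fin 3 → ℝ, ∀ x i j k,
        chris g₂ x i j k = chris g₁ x i j k + (if i = j then φ x k else 0)
          + (if i = k then φ x j else 0)) :
    ∃ c : ℝ, ∀ x, g₂ x = c • g₁ x := by
  by_contra hn
  suffices hS : ∃ S : Geo, S.NC by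
    obtain ⟨S, hS⟩ := hS
    exact main_geo S hS
  obtain ⟨G₁, hG₁, hH₁, hs₁, hr₁⟩ := BRa g₁ h₁ sg₁ sh₁ gl₁ (fun x => ⟨(pg₁ x).1, (pg₁ x).2.1⟩)
    (fun x => ⟨(ph₁ x).1, (ph₁ x).2⟩)
  obtain ⟨G₂, hG₂, hH₂, hs₂, hr₂⟩ := BRa g₂ h₂ sg₂ sh₂ gl₂ (fun x => ⟨(pg₂ x).1, (pg₂ x).2⟩)
    (fun x => ⟨(ph₂ x).1, (ph₂ x).2⟩)
  obtain ⟨Γ₁, hΓ₁, hΓH₁, hm₁, ht₁⟩ := BRb G₁ hG₁ hH₁ hs₁
  obtain ⟨Γ₂, hΓ₂, hΓH₂, hm₂, ht₂⟩ := BRb G₂ hG₂ hH₂ hs₂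
  obtain ⟨ψ, hψ⟩ := BRc g₁ g₂ sg₁ sg₂ (fun x => ⟨(pg₁ x).1, (pg₁ x).2.1⟩)
    (fun x => ⟨(pg₂ x).1, (pg₂ x).2⟩) hφ G₁ G₂ hG₁ hG₂ hr₁ hr₂ Γ₁ Γ₂ hΓ₁ hΓ₂ hm₁ hm₂ ht₁ ht₂
  obtain ⟨L, lam, hL, hHL, hlam, hHlam, hLeq, hsa, hmain⟩ := BRd_sinjukov G₁ G₂ hG₁ hG₂ hH₁ hH₂
    hs₁ hs₂ Γ₁ Γ₂ hΓ₁ hΓ₂ hΓH₁ hΓH₂ hm₁ hm₂ ψ hψ
  have hNC := STe_nc G₁ G₂ L g₁ g₂ hs₁ hs₂ hr₁ hr₂ hLeq hn
  rcases STe_sign (fun x => (G₁ x).det) (STd_sm fun x hx => STd_det_cd (STd_cd hG₁ hx))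
    (fun x hx => (hs₁ x hx).2) with hneg | hpos
  · refine ⟨{ G := G₁, L := L, lam := lam, Γ := Γ₁, smG := hG₁, smL := hL, smlam := hlam,
              smΓ := hΓ₁, homG := hH₁, homL := hHL, homlam := hHlam, homΓ := hΓH₁,
              symm := fun x hx => (hs₁ x hx).1, det_neg := hneg,
              pos := STe_pos G₁ hG₁ hs₁ g₁ (fun y => ⟨(pg₁ y).1, (pg₁ y).2.2.2⟩) hr₁,
              selfadj := hsa, metric := hm₁, torsion := ht₁, main := hmain }, hNC⟩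
  · have hG' : Sm (fun x => -G₁ x) := hG₁.neg
    refine ⟨{ G := fun x => -G₁ x, L := L, lam := fun x => -lam x, Γ := Γ₁, smG := hG', smL := hL,
              smlam := hlam.neg, smΓ := hΓ₁, homG := fun t ht x => congrArg Neg.neg (hH₁ t ht x),
              homL := hHL, homlam := fun t ht x => congrArg Neg.neg (hHlam t ht x), homΓ := hΓH₁,
              symm := fun x hx => by rw [Matrix.transpose_neg, (hs₁ x hx).1],
              det_neg := fun x hx => ?_,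
              pos := STe_pos (fun x => -G₁ x) hG' (fun x hx => ⟨?_, ?_⟩) (fun y => -g₁ y)
                (fun y => ⟨?_, ?_⟩) (fun x hx h3 => ?_),
              selfadj := fun x hx => ?_, metric := fun x hx i => ?_, torsion := ht₁,
              main := fun x hx i => ?_ }, hNC⟩
    · rw [Matrix.det_neg, Fintype.card_fin]
      have := hpos x hx
      linarith
    · rw [Matrix.transpose_neg, (hs₁ x hx).1]
    · rw [Matrix.det_neg]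
      simp [(hs₁ x hx).2]
    · rw [Matrix.IsSymm, Matrix.transpose_neg, (pg₁ y).1.eq]
    · rw [neg_neg]
      exact (pg₁ y).2.2.1
    · rw [hr₁ x hx h3, Matrix.mul_neg, Matrix.neg_mul]
    · show (-G₁ x * L x)ᵀ = -G₁ x * L x
      rw [Matrix.neg_mul, Matrix.transpose_neg, hsa x hx]
    · have h1 : Dv (fun y => -G₁ y) (ee i) x = -Dv G₁ (ee i) x := by
        have := (STd_diff hG₁ hx).hasFDerivAt.neg.fderiv
        exact congrArg (fun l : E4 →L[ℝ] M3 => l (fld (ee i) x)) this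
      rw [h1, hm₁ x hx i, Matrix.mul_neg, Matrix.neg_mul]
      abel
    · rw [hmain x hx i, odot, odot, Matrix.mulVec_neg, Matrix.neg_mulVec, Matrix.neg_mulVec,
        neg_neg, Matrix.neg_vecMulVec, Matrix.vecMulVec_neg, neg_neg]

end Pool.Agent.helper81.SG
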