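import Pool.Agent.helper22.B2.StDefs

/-!
# MP_b2b189_gt: a reparametrized geodesic, differentiated
-/

set_option autoImplicit false

namespace Pool.Agent.helper81.SG

open Set Filter Topology

/-- If `c ∘ τ` solves `u' = - B(u, u)` and `c` solves `w' = - A(w, w)`, then at the point
`A` and `B` differ by a multiple of the velocity. -/
theorem diff_step (A B : (Fin 3 → ℝ) → Fin 3 → Fin 3 → Fin 3 → ℝ) (a b p q s : ℝ)
    (c w u : ℝ → Fin 3 → ℝ) (τ τ' : ℝ → ℝ)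
    (hc : ∀ t ∈ Ioo a b, HasDerivAt c (w t) t ∧
      HasDerivAt w (fun i => -(∑ j, ∑ k, A (c t) i j k * w t j * w t k)) t)
    (hs : s ∈ Ioo p q)
    (hτ : ∀ r ∈ Ioo p q, τ r ∈ Ioo a b ∧ HasDerivAt τ (τ' r) r ∧ τ' r ≠ 0)
    (hu : ∀ r ∈ Ioo p q, HasDerivAt (c ∘ τ) (u r) r ∧
      HasDerivAt u (fun i => -(∑ j, ∑ k, B (c (τ r)) i j k * u r j * u r k)) r) :
    ∃ m : ℝ, ∀ i, ∑ j, ∑ k, (B (c (τ s)) i j k - A (c (τ s)) i j k) * w (τ s) j * w (τ s) k
      = m * w (τ s) i := by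
  by_cases hw0 : w (τ s) = 0
  · refine ⟨0, fun i => ?_⟩
    simp [hw0]
  obtain ⟨i₀, hi₀⟩ : ∃ i, w (τ s) i ≠ 0 := by
    by_contra hcon
    push Not at hcon
    exact hw0 (funext hcon)
  -- the chain rule
  have hchain : ∀ r ∈ Ioo p q, u r = τ' r • w (τ r) := by
    intro r hr
    have h1 : HasDerivAt (c ∘ τ) (τ' r • w (τ r)) r :=
      (hc (τ r) (hτ r hr).1).1.scomp r (hτ r hr).2.1
    exact (hu r hr).1.unique h1
  have hnhds : Ioo p q ∈ 𝓝 s := Ioo_mem_nhds hs.1 hs.2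
  -- the derivative of `w ∘ τ`
  have hwτ : HasDerivAt (fun r => w (τ r))
      (τ' s • (fun i => -(∑ j, ∑ k, A (c (τ s)) i j k * w (τ s) j * w (τ s) k))) s :=
    (hc (τ s) (hτ s hs).1).2.scomp s (hτ s hs).2.1
  have hwτi : ∀ i, HasDerivAt (fun r => w (τ r) i)
      (τ' s * -(∑ j, ∑ k, A (c (τ s)) i j k * w (τ s) j * w (τ s) k)) s := by
    intro i
    have := hasDerivAt_pi.1 hwτ i
    simpa using this
  have hui : ∀ i, HasDerivAt (fun r => u r i)
      (-(∑ j, ∑ k, B (c (τ s)) i j k * u s j * u s k)) s := fun i =>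
    hasDerivAt_pi.1 (hu s hs).2 i
  -- the derivative of `τ'`
  have hne : ∀ᶠ r in 𝓝 s, w (τ r) i₀ ≠ 0 := (hwτi i₀).continuousAt.eventually_ne hi₀
  obtain ⟨μ, hμ⟩ : ∃ μ, HasDerivAt τ' μ s := by
    refine ⟨_, HasDerivAt.congr_of_eventuallyEq ((hui i₀).div (hwτi i₀) hi₀) ?_⟩
    filter_upwards [hne, hnhds] with r hr hr'
    have h2 := congrFun (hchain r hr') i₀
    simp only [Pi.smul_apply, smul_eq_mul] at h2
    show τ' r = u r i₀ / w (τ r) i₀
    rw [h2, mul_div_assoc, div_self hr, mul_one]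
  -- compare the two derivatives of `u`
  have hkey : ∀ i, -(∑ j, ∑ k, B (c (τ s)) i j k * u s j * u s k) =
      μ * w (τ s) i +
        τ' s * (τ' s * -(∑ j, ∑ k, A (c (τ s)) i j k * w (τ s) j * w (τ s) k)) := by
    intro i
    have h3 : HasDerivAt (fun r => τ' r * w (τ r) i)
        (μ * w (τ s) i +
          τ' s * (τ' s * -(∑ j, ∑ k, A (c (τ s)) i j k * w (τ s) j * w (τ s) k))) s :=
      hμ.mul (hwτi i)
    have h4 : (fun r => u r i) =ᶠ[𝓝 s] fun r => τ' r * w (τ r) i := by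
      filter_upwards [hnhds] with r hr
      have h2 := congrFun (hchain r hr) i
      simpa using h2
    exact (hui i).unique (h3.congr_of_eventuallyEq h4)
  have hτs := (hτ s hs).2.2
  have hus := hchain s hs
  refine ⟨-(μ / τ' s ^ 2), fun i => ?_⟩
  have h5 := hkey i
  have h6 : (∑ j, ∑ k, B (c (τ s)) i j k * u s j * u s k) =
      τ' s ^ 2 * ∑ j, ∑ k, B (c (τ s)) i j k * w (τ s) j * w (τ s) k := by
    rw [hus, Finset.mul_sum]
    refine Finset.sum_congr rfl fun j _ => ?_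
    rw [Finset.mul_sum]
    refine Finset.sum_congr rfl fun k _ => ?_
    simp only [Pi.smul_apply, smul_eq_mul]
    ring
  rw [h6] at h5
  have h7 : ∑ j, ∑ k, (B (c (τ s)) i j k - A (c (τ s)) i j k) * w (τ s) j * w (τ s) k =
      (∑ j, ∑ k, B (c (τ s)) i j k * w (τ s) j * w (τ s) k) -
        ∑ j, ∑ k, A (c (τ s)) i j k * w (τ s) j * w (τ s) k := by
    rw [← Finset.sum_sub_distrib]
    refine Finset.sum_congr rfl fun j _ => ?_
    rw [← Finset.sum_sub_distrib]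
    refine Finset.sum_congr rfl fun k _ => ?_
    ring
  rw [h7]
  have h8 : τ' s ^ 2 ≠ 0 := pow_ne_zero 2 hτs
  field_simp
  linarith

end Pool.Agent.helper81.SG
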