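import Pool.Agent.helper48.SG.SpecH

set_option autoImplicit false

open MeasureTheory Set Metric Filter Topology
open scoped ENNReal NNReal ComplexConjugate

namespace Pool.Agent.SG

theorem H19 (h17 : H17_stmt) (h18 : H18_stmt) (hk : K01_stmt) : H19_stmt := by
  intro Γ _ A W ν C hC
  obtain ⟨f, K, α, hα0, hα1, hfm, hf0, hfK, hdens, hhol⟩ := h17 Γ A W ν C hC
  obtain ⟨hprob, hcirc, -⟩ := hk
  have hK : 0 ≤ K := (hf0 0).trans (hfK 0)
  refine ⟨f, 17 * K, α / 3, ⟨by positivity, by linarith, hfm, hf0, ?_, hdens, ?_⟩⟩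
  · intro ξ
    linarith [hfK ξ]
  intro ρ hρ
  have hae : ∀ᵐ ξ ∂lam, ξ ∈ circ := by
    rw [ae_iff]
    exact hcirc
  have key : ∀ᵐ ξ ∂lam, ‖|f ξ - ∫ ζ, poi (ρ * ξ) ζ ∂ν|‖ ≤ 17 * K * (1 - ρ) ^ (α / 3) := by
    filter_upwards [hae, hhol] with ξ hξ hh
    have hξ1 : ‖ξ‖ = 1 := by
      simpa [circ] using hξ
    obtain ⟨i1, i2, i3, i4⟩ := h18 ρ α ξ hρ hα0 hα1 hξ1
    have hpos : ∀ ζ : ℂ, 0 ≤ poi (ρ * ξ) ζ := by
      intro ζ
      unfold poi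
      refine div_nonneg ?_ (by positivity)
      rw [norm_mul, hξ1, mul_one, Complex.norm_real, Real.norm_eq_abs, sq_abs]
      nlinarith [hρ.1, hρ.2]
    have e1 : ∫ ζ, poi (ρ * ξ) ζ ∂ν = ∫ ζ, poi (ρ * ξ) ζ * f ζ ∂lam := by
      rw [hdens, integral_withDensity_eq_integral_toReal_smul
        (hfm.ennreal_ofReal) (Filter.Eventually.of_forall fun _ => ENNReal.ofReal_lt_top)]
      refine integral_congr_ae (Filter.Eventually.of_forall fun ζ => ?_)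
      simp only [ENNReal.toReal_ofReal (hf0 ζ), smul_eq_mul]
      ring
    have i5 : Integrable (fun ζ => poi (ρ * ξ) ζ * f ζ) lam := by
      refine Integrable.mul_bdd (c := K) i1 hfm.aestronglyMeasurable ?_
      refine Filter.Eventually.of_forall fun ζ => ?_
      rw [Real.norm_eq_abs, abs_of_nonneg (hf0 ζ)]
      exact hfK ζ
    have e2 : f ξ - ∫ ζ, poi (ρ * ξ) ζ ∂ν = ∫ ζ, poi (ρ * ξ) ζ * (f ξ - f ζ) ∂lam := by
      have : (fun ζ => poi (ρ * ξ) ζ * (f ξ - f ζ)) =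
          fun ζ => poi (ρ * ξ) ζ * f ξ - poi (ρ * ξ) ζ * f ζ := by
        funext ζ; ring
      rw [e1, this, integral_sub (i1.mul_const _) i5, integral_mul_const, i2, one_mul]
    rw [Real.norm_eq_abs, abs_abs, e2, ← Real.norm_eq_abs]
    refine (norm_integral_le_of_norm_le (g := fun ζ => K * (poi (ρ * ξ) ζ * ‖ξ - ζ‖ ^ α))
      (i3.const_mul K) ?_).trans ?_
    · filter_upwards [hh] with ζ hζ
      rw [norm_mul, Real.norm_eq_abs, Real.norm_eq_abs, abs_of_nonneg (hpos ζ)]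
      calc poi (ρ * ξ) ζ * |f ξ - f ζ| ≤ poi (ρ * ξ) ζ * (K * ‖ξ - ζ‖ ^ α) :=
            mul_le_mul_of_nonneg_left hζ (hpos ζ)
        _ = K * (poi (ρ * ξ) ζ * ‖ξ - ζ‖ ^ α) := by ring
    · rw [integral_const_mul]
      calc K * ∫ ζ, poi (ρ * ξ) ζ * ‖ξ - ζ‖ ^ α ∂lam ≤ K * (17 * (1 - ρ) ^ (α / 3)) :=
            mul_le_mul_of_nonneg_left i4 hK
        _ = 17 * K * (1 - ρ) ^ (α / 3) := by ring
  have hfin : ‖∫ ξ, |f ξ - ∫ ζ, poi (ρ * ξ) ζ ∂ν| ∂lam‖ ≤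
      ∫ _ξ : ℂ, 17 * K * (1 - ρ) ^ (α / 3) ∂lam :=
    norm_integral_le_of_norm_le (integrable_const _) key
  rw [integral_const, probReal_univ, one_smul] at hfin
  exact (le_abs_self _).trans hfin

end Pool.Agent.SG
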