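import Pool.Agent.helper3.SG.SpecS

set_option autoImplicit false

open MeasureTheory Set Metric Filter Topology
open scoped ENNReal NNReal ComplexConjugate commutatorElement

namespace Pool.Agent.SG

theorem S25_polar (a b : ℂ) : ∃ w v : ℂ, w * conj w = 1 ∧ v * conj v = 1 ∧
    a = (‖a‖ : ℂ) * w * v ∧ b = (‖b‖ : ℂ) * w * conj v := by
  have hc : ∀ t : ℝ, conj (Complex.exp ((t : ℂ) * Complex.I)) =
      Complex.exp (-((t : ℂ) * Complex.I)) := by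
    intro t
    rw [← Complex.exp_conj]
    simp
  have hu : ∀ t : ℝ, Complex.exp ((t : ℂ) * Complex.I) *
      conj (Complex.exp ((t : ℂ) * Complex.I)) = 1 := by
    intro t
    rw [hc, ← Complex.exp_add]
    simp
  refine ⟨Complex.exp ((((a.arg + b.arg) / 2 : ℝ) : ℂ) * Complex.I),
    Complex.exp ((((a.arg - b.arg) / 2 : ℝ) : ℂ) * Complex.I), hu _, hu _, ?_, ?_⟩
  · rw [mul_assoc, ← Complex.exp_add]
    have : (((a.arg + b.arg) / 2 : ℝ) : ℂ) * Complex.I + (((a.arg - b.arg) / 2 : ℝ) : ℂ) * Complex.I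
        = (a.arg : ℂ) * Complex.I := by
      push_cast; ring
    rw [this, Complex.norm_mul_exp_arg_mul_I]
  · rw [hc, mul_assoc, ← Complex.exp_add]
    have : (((a.arg + b.arg) / 2 : ℝ) : ℂ) * Complex.I +
        -((((a.arg - b.arg) / 2 : ℝ) : ℂ) * Complex.I) = (b.arg : ℂ) * Complex.I := by
      push_cast; ring
    rw [this, Complex.norm_mul_exp_arg_mul_I]

theorem S25_half (C S : ℝ) (hC : 1 ≤ C) (hS : 0 ≤ S) (h : C ^ 2 - S ^ 2 = 1) :
    ∃ c t : ℝ, c ^ 2 - t ^ 2 = 1 ∧ c ^ 2 + t ^ 2 = C ∧ 2 * c * t = S := by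
  have h1 : 0 ≤ (C + 1) / 2 := by linarith
  have h2 : 0 ≤ (C - 1) / 2 := by linarith
  refine ⟨√((C + 1) / 2), √((C - 1) / 2), ?_, ?_, ?_⟩
  · rw [Real.sq_sqrt h1, Real.sq_sqrt h2]; ring
  · rw [Real.sq_sqrt h1, Real.sq_sqrt h2]; ring
  · rw [mul_assoc, ← Real.sqrt_mul h1]
    have : (C + 1) / 2 * ((C - 1) / 2) = (S / 2) ^ 2 := by nlinarith
    rw [this, Real.sqrt_sq (by linarith)]; ring

theorem S25_key (C S K c t : ℝ) (hC : 1 ≤ C) (hS : 0 ≤ S) (h : C ^ 2 - S ^ 2 = 1)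
    (hct : c ^ 2 - t ^ 2 = 1) (hC' : c ^ 2 + t ^ 2 = C) (hS' : 2 * c * t = S)
    (a β : ℂ) (ha : ‖a‖ ≤ K) (hβ : ‖β‖ ≤ K)
    (h1 : ‖(C : ℂ) ^ 2 * a - (S : ℂ) ^ 2 * conj a + C * S * (β - conj β)‖ ≤ K)
    (h2 : ‖(C : ℂ) * S * (a - conj a) + (C : ℂ) ^ 2 * β - (S : ℂ) ^ 2 * conj β‖ ≤ K)
    (a' b' : ℂ) (ha' : a' = (c : ℂ) ^ 2 * a - (t : ℂ) ^ 2 * conj a + c * t * (β - conj β))
    (hb' : b' = (c : ℂ) * t * (a - conj a) + (c : ℂ) ^ 2 * β - (t : ℂ) ^ 2 * conj β) :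
    |a'.re| ≤ K ∧ |b'.re| ≤ K ∧ |a'.im| ≤ 2 * K / (C + S) ∧ |b'.im| ≤ 2 * K / (C + S) := by
  have e1 : a'.re = a.re := by
    rw [ha']
    simp [pow_two, Complex.mul_re, Complex.mul_im]
    linear_combination a.re * hct
  have e2 : b'.re = β.re := by
    rw [hb']
    simp [pow_two, Complex.mul_re, Complex.mul_im]
    linear_combination β.re * hct
  have e3 : a'.im = a.im * C + β.im * S := by
    rw [ha', ← hC', ← hS']
    simp [pow_two, Complex.mul_re, Complex.mul_im]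
    ring
  have e4 : b'.im = a.im * S + β.im * C := by
    rw [hb', ← hC', ← hS']
    simp [pow_two, Complex.mul_re, Complex.mul_im]
    ring
  have i1 : |a.im * (C ^ 2 + S ^ 2) + β.im * (2 * C * S)| ≤ K := by
    refine le_trans ?_ h1
    refine le_trans (le_of_eq ?_) (Complex.abs_im_le_norm _)
    congr 1
    simp [pow_two, Complex.mul_re, Complex.mul_im]
    ring
  have i2 : |a.im * (2 * C * S) + β.im * (C ^ 2 + S ^ 2)| ≤ K := by
    refine le_trans ?_ h2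
    refine le_trans (le_of_eq ?_) (Complex.abs_im_le_norm _)
    congr 1
    simp [pow_two, Complex.mul_re, Complex.mul_im]
    ring
  have j1 : |a.im| ≤ K := (Complex.abs_im_le_norm _).trans ha
  have j2 : |β.im| ≤ K := (Complex.abs_im_le_norm _).trans hβ
  have hE : 0 < C + S := by linarith
  have hinv : C - S = 1 / (C + S) := by
    field_simp
    nlinarith
  have k1 : |a.im + β.im| * (C + S) ≤ 2 * K / (C + S) := by
    rw [le_div_iff₀ hE]
    have : |a.im + β.im| * (C + S) * (C + S) = |(a.im * (C ^ 2 + S ^ 2) + β.im * (2 * C * S)) +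
        (a.im * (2 * C * S) + β.im * (C ^ 2 + S ^ 2))| := by
      have : (a.im * (C ^ 2 + S ^ 2) + β.im * (2 * C * S)) +
        (a.im * (2 * C * S) + β.im * (C ^ 2 + S ^ 2)) = (a.im + β.im) * ((C + S) * (C + S)) := by
        ring
      rw [this, abs_mul, abs_of_pos (mul_pos hE hE)]
      ring
    rw [this]
    refine (abs_add_le _ _).trans ?_
    linarith
  have k2 : |a.im - β.im| * (C - S) ≤ 2 * K / (C + S) := by
    rw [hinv, mul_one_div]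
    refine div_le_div_of_nonneg_right ?_ hE.le
    refine (abs_sub _ _).trans ?_
    linarith
  have hCS : 0 ≤ C - S := by rw [hinv]; positivity
  refine ⟨?_, ?_, ?_, ?_⟩
  · rw [e1]; exact (Complex.abs_re_le_norm _).trans ha
  · rw [e2]; exact (Complex.abs_re_le_norm _).trans hβ
  · have : a'.im = ((a.im + β.im) * (C + S) + (a.im - β.im) * (C - S)) / 2 := by
      rw [e3]; ring
    rw [this, abs_div, abs_two, div_le_iff₀ two_pos]
    refine (abs_add_le _ _).trans ?_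
    rw [abs_mul, abs_mul, abs_of_pos hE, abs_of_nonneg hCS]
    linarith
  · have : b'.im = ((a.im + β.im) * (C + S) - (a.im - β.im) * (C - S)) / 2 := by
      rw [e4]; ring
    rw [this, abs_div, abs_two, div_le_iff₀ two_pos]
    refine (abs_sub _ _).trans ?_
    rw [abs_mul, abs_mul, abs_of_pos hE, abs_of_nonneg hCS]
    linarith

theorem S25_comm (K F : ℝ) (hF0 : 0 ≤ F) (hF : F ≤ 2 * K) (a b a' b' : ℂ)
    (h1 : |a.re| ≤ K) (h2 : |b.re| ≤ K) (h3 : |a.im| ≤ F) (h4 : |b.im| ≤ F)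
    (h1' : |a'.re| ≤ K) (h2' : |b'.re| ≤ K) (h3' : |a'.im| ≤ F) (h4' : |b'.im| ≤ F) :
    ‖b * conj b' - b' * conj b‖ ≤ 4 * K * F ∧
    ‖b' * (a - conj a) - b * (a' - conj a')‖ ≤ 12 * K * F ∧
    ‖a‖ ≤ 3 * K ∧ ‖b‖ ≤ 3 * K ∧ ‖a'‖ ≤ 3 * K ∧ ‖b'‖ ≤ 3 * K := by
  have hK : 0 ≤ K := (abs_nonneg _).trans h1
  have na : ‖a‖ ≤ 3 * K := (Complex.norm_le_abs_re_add_abs_im a).trans (by linarith)
  have nb : ‖b‖ ≤ 3 * K := (Complex.norm_le_abs_re_add_abs_im b).trans (by linarith)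
  have na' : ‖a'‖ ≤ 3 * K := (Complex.norm_le_abs_re_add_abs_im a').trans (by linarith)
  have nb' : ‖b'‖ ≤ 3 * K := (Complex.norm_le_abs_re_add_abs_im b').trans (by linarith)
  refine ⟨?_, ?_, na, nb, na', nb'⟩
  · have : b * conj b' - b' * conj b = ((2 * (b.im * b'.re - b.re * b'.im) : ℝ) : ℂ) * Complex.I := by
      apply Complex.ext
      · simp; ring
      · simp; ring
    rw [this, norm_mul, Complex.norm_I, mul_one, Complex.norm_real, Real.norm_eq_abs, abs_mul,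
      abs_two]
    have : |b.im * b'.re - b.re * b'.im| ≤ F * K + K * F := by
      refine (abs_sub _ _).trans ?_
      rw [abs_mul, abs_mul]
      exact add_le_add (mul_le_mul h4 h2' (abs_nonneg _) hF0) (mul_le_mul h2 h4' (abs_nonneg _) hK)
    nlinarith
  · have e : ∀ z : ℂ, ‖z - conj z‖ = 2 * |z.im| := by
      intro z
      rw [Complex.sub_conj, norm_mul, Complex.norm_I, mul_one, Complex.norm_real, Real.norm_eq_abs,
        abs_mul, abs_two]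
    refine (norm_sub_le _ _).trans ?_
    rw [norm_mul, norm_mul, e, e]
    have i1 : ‖b'‖ * (2 * |a.im|) ≤ 3 * K * (2 * F) :=
      mul_le_mul nb' (by linarith) (by positivity) (by positivity)
    have i2 : ‖b‖ * (2 * |a'.im|) ≤ 3 * K * (2 * F) :=
      mul_le_mul nb (by linarith) (by positivity) (by positivity)
    nlinarith

theorem S25_nrm {w : ℂ} (h : w * conj w = 1) : ‖w‖ = 1 := by
  have : ‖w‖ * ‖w‖ = 1 := by
    rw [← Complex.norm_conj w]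
    nth_rewrite 2 [Complex.norm_conj]
    rw [mul_comm, ← norm_mul, h, norm_one]
  nlinarith [norm_nonneg w]

theorem S25_eps {ε : ℂ} (h : ε = 1 ∨ ε = -1) : ‖ε‖ = 1 := by
  rcases h with h | h <;> simp [h]

theorem S25_elem (h1 : S01_stmt) (h2 : S02_stmt) (Γ : Type) [Group Γ] (A A' : DiscRep Γ) (s : Γ)
    (w v : ℂ) (hw : w * conj w = 1) (hv : v * conj v = 1)
    (has : A.a s = (‖A.a s‖ : ℂ) * w * v) (hbs : A.b s = (‖A.b s‖ : ℂ) * w * conj v)
    (c t : ℝ) (hct : c ^ 2 - t ^ 2 = 1) (hC' : c ^ 2 + t ^ 2 = ‖A.a s‖)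
    (hS' : 2 * c * t = ‖A.b s‖) (hc : IsConj (conj w * c) (-(w * t)) A A')
    (u : Γ) (K : ℝ) (hu : ‖A.a u‖ ≤ K) (hsu : ‖A.a (s⁻¹ * u * s)‖ ≤ K) :
    |(A'.a u).re| ≤ K ∧ |(A'.b u).re| ≤ K ∧ |(A'.a u).im| ≤ 2 * K / (‖A.a s‖ + ‖A.b s‖) ∧
      |(A'.b u).im| ≤ 2 * K / (‖A.a s‖ + ‖A.b s‖) := by
  obtain ⟨p1, p2, p3⟩ := h1 Γ A
  obtain ⟨q1, q2, q3, q4, -⟩ := h2 Γ A
  have nw := S25_nrm hw
  have nv := S25_nrm hv
  have hba : ‖A.b u‖ ≤ K := (q2 u).trans hu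
  have hbb : ‖A.b (s⁻¹ * u * s)‖ ≤ K := (q2 _).trans hsu
  obtain ⟨ε₁, he1, r1, r2⟩ := p3 s
  obtain ⟨ε₂, he2, r3, r4⟩ := p1 s⁻¹ u
  obtain ⟨ε₃, he3, r5, r6⟩ := p1 (s⁻¹ * u) s
  have m1 := S25_eps he1
  have m2 := S25_eps he2
  have m3 := S25_eps he3
  have cw : conj (conj w) = w := Complex.conj_conj w
  have cv : conj (conj v) = v := Complex.conj_conj v
  have e1 : ‖A.a (s⁻¹ * u * s)‖ = ‖((‖A.a s‖ : ℝ) : ℂ) ^ 2 * A.a u -
      ((‖A.b s‖ : ℝ) : ℂ) ^ 2 * conj (A.a u) + ((‖A.a s‖ : ℝ) : ℂ) * ((‖A.b s‖ : ℝ) : ℂ) *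
        (conj w ^ 2 * A.b u - conj (conj w ^ 2 * A.b u))‖ := by
    have : A.a (s⁻¹ * u * s) = ε₃ * ε₂ * ε₁ * (((‖A.a s‖ : ℝ) : ℂ) ^ 2 * A.a u -
      ((‖A.b s‖ : ℝ) : ℂ) ^ 2 * conj (A.a u) + ((‖A.a s‖ : ℝ) : ℂ) * ((‖A.b s‖ : ℝ) : ℂ) *
        (conj w ^ 2 * A.b u - conj (conj w ^ 2 * A.b u))) := by
      rw [r5, r3, r4, r1, r2]
      set C : ℂ := ((‖A.a s‖ : ℝ) : ℂ) with hC
      set S : ℂ := ((‖A.b s‖ : ℝ) : ℂ) with hS
      have hcC : conj C = C := Complex.conj_ofReal _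
      have hcS : conj S = S := Complex.conj_ofReal _
      rw [has, hbs]
      simp only [map_mul, map_neg, map_sub, map_pow, cw, cv, hcC, hcS]
      generalize conj w = W at *
      generalize conj v = V at *
      linear_combination (ε₃ * ε₂ * ε₁) * ((C ^ 2 * A.a u - S ^ 2 * conj (A.a u)) * (v * V)) * hw
        + (ε₃ * ε₂ * ε₁) * ((C ^ 2 * A.a u - S ^ 2 * conj (A.a u)) +
          C * S * (W ^ 2 * A.b u - w ^ 2 * conj (A.b u))) * hv
    rw [this, norm_mul, norm_mul, norm_mul, m1, m2, m3]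
    ring
  have e2 : ‖A.b (s⁻¹ * u * s)‖ = ‖((‖A.a s‖ : ℝ) : ℂ) * ((‖A.b s‖ : ℝ) : ℂ) *
      (A.a u - conj (A.a u)) + ((‖A.a s‖ : ℝ) : ℂ) ^ 2 * (conj w ^ 2 * A.b u) -
        ((‖A.b s‖ : ℝ) : ℂ) ^ 2 * conj (conj w ^ 2 * A.b u)‖ := by
    have : A.b (s⁻¹ * u * s) = ε₃ * ε₂ * ε₁ * (conj v) ^ 2 * (((‖A.a s‖ : ℝ) : ℂ) *
      ((‖A.b s‖ : ℝ) : ℂ) *
      (A.a u - conj (A.a u)) + ((‖A.a s‖ : ℝ) : ℂ) ^ 2 * (conj w ^ 2 * A.b u) -
        ((‖A.b s‖ : ℝ) : ℂ) ^ 2 * conj (conj w ^ 2 * A.b u)) := by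
      rw [r6, r3, r4, r1, r2]
      set C : ℂ := ((‖A.a s‖ : ℝ) : ℂ) with hC
      set S : ℂ := ((‖A.b s‖ : ℝ) : ℂ) with hS
      have hcC : conj C = C := Complex.conj_ofReal _
      have hcS : conj S = S := Complex.conj_ofReal _
      rw [has, hbs]
      simp only [map_mul, map_neg, map_sub, map_pow, cw, cv, hcC, hcS]
      generalize conj w = W at *
      generalize conj v = V at *
      linear_combination (ε₃ * ε₂ * ε₁) * V ^ 2 * (C * S * (A.a u - conj (A.a u))) * hw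
    rw [this, norm_mul, norm_mul, norm_mul, norm_mul, norm_pow, m1, m2, m3, Complex.norm_conj, nv]
    ring
  have hβ : ‖conj w ^ 2 * A.b u‖ ≤ K := by
    rw [norm_mul, norm_pow, Complex.norm_conj, nw]
    simpa using hba
  refine S25_key ‖A.a s‖ ‖A.b s‖ K c t (q1 s) (norm_nonneg _) (A.norm_eq s) hct hC' hS'
    (A.a u) (conj w ^ 2 * A.b u) hu hβ (e1 ▸ hsu) (e2 ▸ hbb) _ _ ?_ ?_
  · rw [hc.1 u]
    simp only [map_mul, map_neg, map_pow, cw, Complex.conj_ofReal]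
    generalize conj w = W at *
    linear_combination ((c : ℂ) ^ 2 * A.a u - (t : ℂ) ^ 2 * conj (A.a u)) * hw
  · rw [hc.2 u]
    simp only [map_mul, map_neg, map_pow, cw, Complex.conj_ofReal]
    generalize conj w = W at *
    linear_combination ((c : ℂ) * t * (A.a u - conj (A.a u))) * hw

theorem S25_fin (h1 : S01_stmt) (h2 : S02_stmt) (Γ : Type) [Group Γ] (A : DiscRep Γ) (u v : Γ)
    (K F : ℝ) (hF0 : 0 ≤ F) (hF : F ≤ 2 * K)
    (hu : |(A.a u).re| ≤ K ∧ |(A.b u).re| ≤ K ∧ |(A.a u).im| ≤ F ∧ |(A.b u).im| ≤ F)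
    (hv : |(A.a v).re| ≤ K ∧ |(A.b v).re| ≤ K ∧ |(A.a v).im| ≤ F ∧ |(A.b v).im| ≤ F) :
    A.dev ⁅u, v⁆ ≤ 16 * K * F * (36 * K ^ 2) := by
  obtain ⟨p1, p2, p3⟩ := h1 Γ A
  have hK : 0 ≤ K := (abs_nonneg _).trans hu.1
  obtain ⟨ε₁, he1, r1, r2⟩ := p1 u v
  obtain ⟨ε₂, he2, r3, r4⟩ := p1 v u
  obtain ⟨ε₃, he3, r5, r6⟩ := p1 ⁅u, v⁆ (v * u)
  have hcm : ⁅u, v⁆ * (v * u) = u * v := by
    rw [commutatorElement_def]; group
  rw [hcm, r1, r3, r4] at r5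
  rw [hcm, r2, r3, r4] at r6
  obtain ⟨c1, c2, na, nb, na', nb'⟩ := S25_comm K F hF0 hF (A.a u) (A.b u) (A.a v) (A.b v)
    hu.1 hu.2.1 hu.2.2.1 hu.2.2.2 hv.1 hv.2.1 hv.2.2.1 hv.2.2.2
  have hdu := A.norm_eq u
  have hdv := A.norm_eq v
  have du : A.a u * conj (A.a u) - A.b u * conj (A.b u) = 1 := by
    rw [Complex.mul_conj, Complex.mul_conj, Complex.normSq_eq_norm_sq, Complex.normSq_eq_norm_sq,
      ← Complex.ofReal_sub, hdu]; simp
  have dv : A.a v * conj (A.a v) - A.b v * conj (A.b v) = 1 := by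
    rw [Complex.mul_conj, Complex.mul_conj, Complex.normSq_eq_norm_sq, Complex.normSq_eq_norm_sq,
      ← Complex.ofReal_sub, hdv]; simp
  set W1 : ℂ := A.a v * A.a u + A.b v * conj (A.b u) with hW1
  set W2 : ℂ := A.a v * A.b u + A.b v * conj (A.a u) with hW2
  have nW1 : ‖W1‖ ≤ 18 * K ^ 2 := by
    rw [hW1]
    refine (norm_add_le _ _).trans ?_
    rw [norm_mul, norm_mul, Complex.norm_conj]
    have i1 : ‖A.a v‖ * ‖A.a u‖ ≤ 3 * K * (3 * K) :=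
      mul_le_mul na' na (norm_nonneg _) (by positivity)
    have i2 : ‖A.b v‖ * ‖A.b u‖ ≤ 3 * K * (3 * K) :=
      mul_le_mul nb' nb (norm_nonneg _) (by positivity)
    nlinarith
  have nW2 : ‖W2‖ ≤ 18 * K ^ 2 := by
    rw [hW2]
    refine (norm_add_le _ _).trans ?_
    rw [norm_mul, norm_mul, Complex.norm_conj]
    have i1 : ‖A.a v‖ * ‖A.b u‖ ≤ 3 * K * (3 * K) :=
      mul_le_mul na' nb (norm_nonneg _) (by positivity)
    have i2 : ‖A.b v‖ * ‖A.a u‖ ≤ 3 * K * (3 * K) :=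
      mul_le_mul nb' na (norm_nonneg _) (by positivity)
    nlinarith
  have dW : W1 * conj W1 - W2 * conj W2 = 1 := by
    rw [hW1, hW2]
    simp only [map_add, map_mul, Complex.conj_conj]
    linear_combination (A.a v * conj (A.a v) - A.b v * conj (A.b v)) * du + dv
  have ε1s : ε₁ * ε₁ = 1 := by rcases he1 with h | h <;> simp [h]
  have ε2s : ε₂ * ε₂ = 1 := by rcases he2 with h | h <;> simp [h]
  have ε3s : ε₃ * ε₃ = 1 := by rcases he3 with h | h <;> simp [h]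
  have ε2c : conj ε₂ = ε₂ := by rcases he2 with h | h <;> simp [h]
  simp only [map_mul, ε2c] at r5 r6
  set X : ℂ := A.a ⁅u, v⁆ with hX
  set Y : ℂ := A.b ⁅u, v⁆ with hY
  set ε : ℂ := ε₁ * ε₂ * ε₃ with hε
  have hε' : ε = 1 ∨ ε = -1 := by
    rcases he1 with h | h <;> rcases he2 with h' | h' <;> rcases he3 with h'' | h'' <;>
      simp [hε, h, h', h'']
  have hεn := S25_eps hε'
  -- the commutator identities
  have k1 : X * W1 + Y * conj W2 = ε * (A.a u * A.a v + A.b u * conj (A.b v)) := by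
    linear_combination (-(ε₂ * ε₃)) * r5 - (X * W1 + Y * conj W2) * ε₃ ^ 2 * ε2s
      - (X * W1 + Y * conj W2) * ε3s
  have k2 : X * W2 + Y * conj W1 = ε * (A.a u * A.b v + A.b u * conj (A.a v)) := by
    linear_combination (-(ε₂ * ε₃)) * r6 - (X * W2 + Y * conj W1) * ε₃ ^ 2 * ε2s
      - (X * W2 + Y * conj W1) * ε3s
  set D1 : ℂ := A.b u * conj (A.b v) - A.b v * conj (A.b u) with hD1
  set D2 : ℂ := A.b v * (A.a u - conj (A.a u)) - A.b u * (A.a v - conj (A.a v)) with hD2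
  have l1 : (X - ε) * W1 + Y * conj W2 = ε * D1 := by
    linear_combination k1 - ε * hW1 - ε * hD1
  have l2 : (X - ε) * W2 + Y * conj W1 = ε * D2 := by
    linear_combination k2 - ε * hW2 - ε * hD2
  have m1 : X - ε = ε * (D1 * conj W1 - D2 * conj W2) := by
    linear_combination (conj W1) * l1 - (conj W2) * l2 - (X - ε) * dW
  have m2 : Y = ε * (D2 * W1 - D1 * W2) := by
    linear_combination W1 * l2 - W2 * l1 - Y * dW
  have n1 : ‖X - ε‖ ≤ 4 * K * F * (18 * K ^ 2) + 12 * K * F * (18 * K ^ 2) := by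
    rw [m1, norm_mul, hεn, one_mul]
    refine (norm_sub_le _ _).trans ?_
    rw [norm_mul, norm_mul, Complex.norm_conj, Complex.norm_conj]
    exact add_le_add (mul_le_mul c1 nW1 (norm_nonneg _) (by positivity))
      (mul_le_mul c2 nW2 (norm_nonneg _) (by positivity))
  have n2 : ‖Y‖ ≤ 12 * K * F * (18 * K ^ 2) + 4 * K * F * (18 * K ^ 2) := by
    rw [m2, norm_mul, hεn, one_mul]
    refine (norm_sub_le _ _).trans ?_
    rw [norm_mul, norm_mul]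
    exact add_le_add (mul_le_mul c2 nW1 (norm_nonneg _) (by positivity))
      (mul_le_mul c1 nW2 (norm_nonneg _) (by positivity))
  have n3 : min ‖X - 1‖ ‖X + 1‖ ≤ ‖X - ε‖ := by
    rcases hε' with h | h
    · rw [h]; exact min_le_left _ _
    · rw [h, sub_neg_eq_add]; exact min_le_right _ _
  have : A.dev ⁅u, v⁆ = min ‖X - 1‖ ‖X + 1‖ + ‖Y‖ := rfl
  rw [this]
  linarith

theorem S25 (h1 : S01_stmt) (h2 : S02_stmt) : S25_stmt := by
  intro Γ _ A s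
  obtain ⟨w, v, hw, hv, has, hbs⟩ := S25_polar (A.a s) (A.b s)
  obtain ⟨q1, q2, q3, q4, -⟩ := h2 Γ A
  obtain ⟨c, t, hct, hC, hS⟩ := S25_half ‖A.a s‖ ‖A.b s‖ (q1 s) (norm_nonneg _) (A.norm_eq s)
  have nw := S25_nrm hw
  refine ⟨conj w * c, -(w * t), ?_, ?_⟩
  · rw [norm_neg, norm_mul, norm_mul, Complex.norm_conj, nw, one_mul, one_mul, Complex.norm_real,
      Complex.norm_real, Real.norm_eq_abs, Real.norm_eq_abs, sq_abs, sq_abs]
    exact hct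
  intro A' hc x y η hx hsx hy hsy
  have hL : ∀ γ, A.L γ ≤ η → ‖A.a γ‖ ≤ Real.exp (η / 2) := by
    intro γ h
    have h0 : 0 < ‖A.a γ‖ := lt_of_lt_of_le one_pos (q1 γ)
    rw [← Real.log_le_iff_le_exp h0]
    unfold DiscRep.L at h
    linarith
  have hE : 1 ≤ ‖A.a s‖ + ‖A.b s‖ := by linarith [q1 s, norm_nonneg (A.b s)]
  have hE0 : 0 < ‖A.a s‖ + ‖A.b s‖ := by linarith
  have hK0 : 0 < Real.exp (η / 2) := Real.exp_pos _
  have b1 := S25_elem h1 h2 Γ A A' s w v hw hv has hbs c t hct hC hS hc x (Real.exp (η / 2))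
    (hL _ hx) (hL _ hsx)
  have b2 := S25_elem h1 h2 Γ A A' s w v hw hv has hbs c t hct hC hS hc y (Real.exp (η / 2))
    (hL _ hy) (hL _ hsy)
  have hF : 2 * Real.exp (η / 2) / (‖A.a s‖ + ‖A.b s‖) ≤ 2 * Real.exp (η / 2) :=
    div_le_self (by positivity) hE
  refine (S25_fin h1 h2 Γ A' x y (Real.exp (η / 2))
    (2 * Real.exp (η / 2) / (‖A.a s‖ + ‖A.b s‖)) (by positivity) hF b1 b2).trans ?_
  have hexp : Real.exp (2 * η - A.L s / 2) = Real.exp (η / 2) ^ 4 * (1 / ‖A.a s‖) := by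
    have h0 : 0 < ‖A.a s‖ := lt_of_lt_of_le one_pos (q1 s)
    have : A.L s / 2 = Real.log ‖A.a s‖ := by
      unfold DiscRep.L; ring
    rw [this, Real.exp_sub, Real.exp_log h0, ← Real.exp_nat_mul, mul_one_div]
    congr 2
    push_cast; ring
  rw [hexp]
  have h0 : 0 < ‖A.a s‖ := lt_of_lt_of_le one_pos (q1 s)
  have hle : 2 * Real.exp (η / 2) / (‖A.a s‖ + ‖A.b s‖) ≤
      2 * Real.exp (η / 2) * (1 / ‖A.a s‖) := by
    rw [mul_one_div]
    exact div_le_div_of_nonneg_left (by positivity) h0 (by linarith [norm_nonneg (A.b s)])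
  have hpos : 0 ≤ Real.exp (η / 2) ^ 4 * (1 / ‖A.a s‖) := by positivity
  calc 16 * Real.exp (η / 2) * (2 * Real.exp (η / 2) / (‖A.a s‖ + ‖A.b s‖)) *
        (36 * Real.exp (η / 2) ^ 2)
      = 576 * Real.exp (η / 2) ^ 3 * (2 * Real.exp (η / 2) / (‖A.a s‖ + ‖A.b s‖)) := by ring
    _ ≤ 576 * Real.exp (η / 2) ^ 3 * (2 * Real.exp (η / 2) * (1 / ‖A.a s‖)) :=
        mul_le_mul_of_nonneg_left hle (by positivity)
    _ = 1152 * (Real.exp (η / 2) ^ 4 * (1 / ‖A.a s‖)) := by ring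
    _ ≤ 3000 * (Real.exp (η / 2) ^ 4 * (1 / ‖A.a s‖)) := by linarith

end Pool.Agent.SG
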