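import Mathlib

/-!
# MP_b2b189_gt: pseudo-Riemannian metrics on the 3-sphere and their geodesics

The definitions used in the statement of `Pool/Agent/Results/MP_b2b189_gt/SameGeodesics.lean`.
-/

set_option autoImplicit false

namespace Pool.Agent.helper81.SG

open Matrix

/-- The domain of a chart of the 3-sphere. -/
abbrev R3 : Type := Fin 3 → ℝ

/-- The transition map `y ↦ y / |y|²` (for `y ≠ 0`) between the charts of the 3-sphere given by the
stereographic projections from the two poles. -/
noncomputable def inversion (y : R3) : R3 := (∑ i, y i ^ 2)⁻¹ • y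

/-- A smooth pseudo-Riemannian metric, of any signature, on the 3-sphere: a smooth symmetric
nondegenerate tensor field, given by its components `g` and `h` in the two stereographic charts.
On the common domain of the charts `h` is the pullback of `g` under the transition map. -/
structure SphereMetric where
  /-- components in the chart given by the projection from one pole -/
  g : R3 → Matrix (Fin 3) (Fin 3) ℝ
  /-- components in the chart given by the projection from the other pole -/
  h : R3 → Matrix (Fin 3) (Fin 3) ℝ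
  smooth_g : ∀ i j, ContDiff ℝ (⊤ : ℕ∞) (fun x => g x i j)
  smooth_h : ∀ i j, ContDiff ℝ (⊤ : ℕ∞) (fun x => h x i j)
  symm_g : ∀ x, (g x).IsSymm
  symm_h : ∀ x, (h x).IsSymm
  nondegenerate_g : ∀ x, (g x).det ≠ 0
  nondegenerate_h : ∀ x, (h x).det ≠ 0
  transition : ∀ y, y ≠ 0 → ∀ u w : R3, u ⬝ᵥ (h y *ᵥ w) =
    fderiv ℝ inversion y u ⬝ᵥ (g (inversion y) *ᵥ fderiv ℝ inversion y w)

/-- The metric has indefinite signature: at every point it is neither positive nor negative
definite. -/
def SphereMetric.Indefinite (M : SphereMetric) : Prop :=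
  (∀ x, ¬ (M.g x).PosDef ∧ ¬ (-M.g x).PosDef) ∧ ∀ x, ¬ (M.h x).PosDef ∧ ¬ (-M.h x).PosDef

/-- The Christoffel symbols `Γ^i_{jk}` of the metric with components `g` in a chart. -/
noncomputable def christoffel (g : R3 → Matrix (Fin 3) (Fin 3) ℝ) (x : R3) (i j k : Fin 3) : ℝ :=
  (1 / 2) * ∑ l, (g x)⁻¹ i l * (fderiv ℝ (fun z => g z l k) x (Pi.single j 1)
    + fderiv ℝ (fun z => g z l j) x (Pi.single k 1) - fderiv ℝ (fun z => g z j k) x (Pi.single l 1))

/-- `γ` is an affinely parametrized geodesic, on the interval `(a, b)`, of the metric with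
components `g` in a chart: with the velocity `v = γ'` one has `v' + Γ(v, v) = 0`. -/
def IsGeodesic (g : R3 → Matrix (Fin 3) (Fin 3) ℝ) (a b : ℝ) (γ : ℝ → R3) : Prop :=
  ∃ v : ℝ → R3, ∀ t ∈ Set.Ioo a b, HasDerivAt γ (v t) t ∧
    HasDerivAt v (fun i => -(∑ j, ∑ k, christoffel g (γ t) i j k * v t j * v t k)) t

/-- Every geodesic of `g` is, near each of its points and after a regular reparametrization `τ`,
a geodesic of `g'`. -/
def GeodesicsOf (g g' : R3 → Matrix (Fin 3) (Fin 3) ℝ) : Prop :=
  ∀ (a b : ℝ) (γ : ℝ → R3), IsGeodesic g a b γ → ∀ t ∈ Set.Ioo a b,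
    ∃ (c d s : ℝ) (τ τ' : ℝ → ℝ), s ∈ Set.Ioo c d ∧ τ s = t ∧
      (∀ r ∈ Set.Ioo c d, τ r ∈ Set.Ioo a b ∧ HasDerivAt τ (τ' r) r ∧ τ' r ≠ 0) ∧
      IsGeodesic g' c d (γ ∘ τ)

end Pool.Agent.helper81.SG
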