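import Pool.Agent.helper81.SG.Defs
import Pool.Agent.helper22.B2.StDefs

/-!
# MP_b2b189_gt: the derivative of the inversion, the gluing condition, and proportionality in the
second chart
-/

set_option autoImplicit false

namespace Pool.Agent.helper81.SG

open Matrix

theorem sumsq_ne {y : R3} (hy : y ≠ 0) : (∑ i, y i ^ 2) ≠ 0 := by
  intro h
  apply hy
  funext i
  have h1 := (Finset.sum_eq_zero_iff_of_nonneg (fun i _ => sq_nonneg (y i))).1 h i
    (Finset.mem_univ i)
  simpa using h1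

theorem hasFDerivAt_sumsq (y : R3) :
    HasFDerivAt (fun z : R3 => ∑ i, z i ^ 2)
      (∑ i, (2 * y i) • (ContinuousLinearMap.proj i : R3 →L[ℝ] ℝ)) y := by
  have h : ∀ i ∈ (Finset.univ : Finset (Fin 3)), HasFDerivAt (fun z : R3 => z i ^ 2)
      ((2 * y i) • (ContinuousLinearMap.proj i : R3 →L[ℝ] ℝ)) y := by
    intro i _
    have h1 : HasFDerivAt (fun z : R3 => z i) (ContinuousLinearMap.proj i : R3 →L[ℝ] ℝ) y :=
      (ContinuousLinearMap.proj i : R3 →L[ℝ] ℝ).hasFDerivAt
    have h2 := h1.pow 2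
    simpa using h2
  exact HasFDerivAt.fun_sum h

theorem fderiv_inversion {y : R3} (hy : y ≠ 0) (u : R3) (c : Fin 3) :
    fderiv ℝ inversion y u c =
      (∑ i, y i ^ 2)⁻¹ * u c - 2 * (∑ i, y i * u i) * y c * ((∑ i, y i ^ 2)⁻¹) ^ 2 := by
  have h1 := hasFDerivAt_sumsq y
  have h2 := (hasDerivAt_inv (sumsq_ne hy)).comp_hasFDerivAt y h1
  have h3 := h2.smul (hasFDerivAt_id y)
  have h4 : HasFDerivAt inversion _ y := h3
  rw [h4.fderiv]
  simp [Finset.mul_sum, Finset.sum_mul]
  field_simp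
  ring_nf
  simp [Fin.sum_univ_three]
  ring

theorem entry_eq (A : Matrix (Fin 3) (Fin 3) ℝ) (a b : Fin 3) :
    (Pi.single a 1 : R3) ⬝ᵥ (A *ᵥ (Pi.single b 1 : R3)) = A a b := by
  rw [Matrix.mulVec_single_one, single_one_dotProduct]
  rfl

theorem glue_of_transition (M : SphereMetric) : Pool.Agent.helper68.B2.Glue M.g M.h := by
  intro y hy a b
  have h1 := M.transition y hy (Pi.single a 1) (Pi.single b 1)
  rw [entry_eq] at h1
  rw [h1, dotProduct]
  have hs : ∀ e : Fin 3, (∑ i, y i * (Pi.single e 1 : R3) i) = y e := by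
    intro e
    simp [Pi.single_apply]
  have hd : ∀ e c : Fin 3, fderiv ℝ inversion y (Pi.single e 1) c =
      (if c = e then (∑ i : Fin 3, y i ^ 2)⁻¹ else 0)
        - 2 * y c * y e * ((∑ i : Fin 3, y i ^ 2)⁻¹) ^ 2 := by
    intro e c
    rw [fderiv_inversion hy, hs, Pi.single_apply]
    split_ifs <;> ring
  refine Finset.sum_congr rfl fun c _ => ?_
  rw [mulVec, dotProduct, Finset.mul_sum]
  refine Finset.sum_congr rfl fun d _ => ?_
  rw [hd, hd]
  show _ * (M.g ((∑ i, y i ^ 2)⁻¹ • y) c d * _) = _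
  ring

theorem proportional_h (M M' : SphereMetric) (k : ℝ) (h : ∀ x, M'.g x = k • M.g x) (y : R3) :
    M'.h y = k • M.h y := by
  have h1 : ∀ z ∈ ({0}ᶜ : Set R3), ∀ a b, M'.h z a b = k * M.h z a b := by
    intro z hz a b
    have e1 := M.transition z hz (Pi.single a 1) (Pi.single b 1)
    have e2 := M'.transition z hz (Pi.single a 1) (Pi.single b 1)
    rw [entry_eq] at e1 e2
    rw [e2, e1, h, Matrix.smul_mulVec, dotProduct_smul, smul_eq_mul]
  ext a b
  have h2 : Continuous fun z => M'.h z a b := (M'.smooth_h a b).continuous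
  have h3 : Continuous fun z => k * M.h z a b := (M.smooth_h a b).continuous.const_mul k
  have h4 : (fun z => M'.h z a b) = fun z => k * M.h z a b :=
    Continuous.ext_on (dense_compl_singleton (0 : R3)) h2 h3 fun z hz => h1 z hz a b
  exact congrFun h4 y

end Pool.Agent.helper81.SG
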